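import Mathlib
import Pool.Agent.NH36.VH.Front

/-!
# Abelian varieties of CM type, split Weil classes of degree four
-/

namespace Pool.Agent.NH36.VH

open Module Pool.Agent.Y90 Pool.Agent.NH32
open Pool.Agent.H204R3.CM (IsHodge)

/-- `X` is of CM type: it has a commutative reduced algebra of endomorphisms (with rational
coefficients) of dimension `dim H_1(X, ℚ)`. -/
def IsCMType (X : AV) : Prop :=
  ∃ A : Subalgebra ℚ (Module.End ℚ X.H), (∀ a ∈ A, ∀ b ∈ A, a * b = b * a) ∧
    (∀ a ∈ A, a * a = 0 → a = 0) ∧ finrank ℚ A = finrank ℚ X.H ∧ ∀ a ∈ A, IsHom X X a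

/-- **The variational principle for split Weil classes of degree four**: a split Weil class of degree
four in a family of split Weil type belongs to `𝒜` on `X'` if it belongs to `𝒜` on `X`. -/
def VariationalSplitWeilFour (𝒜 : Sys) : Prop :=
  ∀ (X X' : AV) (e : X.H ≃ₗ[ℚ] X'.H) (w : X'.H [⋀^Fin 4]→ₗ[ℚ] ℚ),
    IsSplitWeilPair X X' e w → 𝒜.A X (Fin 4) (w.compLinearMap e.toLinearMap) → 𝒜.A X' (Fin 4) w

end Pool.Agent.NH36.VH
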