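import Mathlib
import Pool.Agent.NH36.VC.Front
import Pool.Agent.NH36.VH.Stm

/-!
# Project VC: statements with light imports
-/

namespace Pool.Agent.NH36.VH

open Module Pool.Agent.Y90 Pool.Agent.NH32
open Pool.Agent.H204R3.CM (IsHodge)

noncomputable section

/-- **V1.** A cyclic vector for a commutative reduced algebra of maximal dimension. -/
def St_V1 : Prop := ∀ (V : Type) [AddCommGroup V] [Module ℚ V] [FiniteDimensional ℚ V]
  (A : Subalgebra ℚ (Module.End ℚ V)), (∀ a ∈ A, ∀ b ∈ A, a * b = b * a) →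
  (∀ a ∈ A, a * a = 0 → a = 0) → finrank ℚ A = finrank ℚ V →
  ∃ v₀ : V, ∀ a ∈ A, a v₀ = 0 → a = 0

/-- **V2.** Abelian varieties of CM type in the sense of CMp. -/
def St_V2 : Prop := ∀ (X : AV), IsCMType X → ∀ E : X.H → X.H → ℚ, IsPolarization X.per E →
  ∃ z : X.H →ₗ[ℚ] X.H, CMp X E z

end

end Pool.Agent.NH36.VH
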