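import Mathlib
import Pool.Agent.NH36.VC.Stm
import Pool.Agent.NH32.GpA
import Pool.Agent.NH32.GJ12
import Pool.Agent.NH32.GJ14
import Pool.Agent.NH32.GJ16
import Pool.Agent.NH32.GJ18

/-!
# Project VC: statements with the imports of NH32
-/

namespace Pool.Agent.NH36.VC

open Matrix Module Pool.Agent.Y90 Pool.Agent.NH32
open Pool.Agent.NH36.VH (CMp IsCMType)
open Pool.Agent.H204R3.CM (IsHodge)

noncomputable section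

/-- All irreducible modules of `X` are lines. -/
def LinAV (X : AV) : Prop := ∀ (d : ℕ) (Δ : (ℂ ≃+* ℂ) → Matrix (Fin d) (Fin d) ℂ), IrD Δ →
  Rz X d Δ → d = 1

/-- `X` is of CM type, in the sense of `CMp`. -/
def CMt (X : AV) : Prop := ∃ (E : X.H → X.H → ℚ) (z : X.H →ₗ[ℚ] X.H), CMp X E z

/-- **V3.** The modules of a variety of CM type are lines. -/
def St_V3 : Prop := ∀ X : AV, CMt X → LinAV X

/-- **V4.** Products. -/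
def St_V4 : Prop := ∀ X Y : AV, CMt X → CMt Y → CMt (GJ14.prodAV X Y)

/-- **V5.** Powers. -/
def St_V5 : Prop := ∀ X : AV, CMt X → ∀ n : ℕ, CMt (powAV X (Fin n))

/-- **V6.** Elementary varieties of CM type. -/
def St_V6 : Prop := ∀ K : Subfield ℂ, FiniteDimensional ℚ K → (∀ σ : ℂ ≃+* ℂ, ∀ z ∈ K, σ z ∈ K) →
  (∀ σ : ℂ ≃+* ℂ, ∀ z ∈ K, σ (cj z) = cj (σ z)) → ∀ F : (ℂ ≃+* ℂ) → ℤ,
  (∀ σ, F σ = 1 ∨ F σ = -1) → (∀ σ, F (cj.trans σ) = -F σ) →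
  (∀ σ τ, (∀ z ∈ K, σ z = τ z) → F σ = F τ) → ∃ C : AV, IsCMType C ∧ Rz C 1 (lineD F) ∧
    ∀ (d : ℕ) (Δ : (ℂ ≃+* ℂ) → Matrix (Fin d) (Fin d) ℂ), IrD Δ → Rz C d Δ → d = 1 ∧
      ∀ σ τ : ℂ ≃+* ℂ, (∀ z ∈ K, σ z = τ z) → trace (Δ σ) = trace (Δ τ)

/-- **V7.** The hull. -/
def St_V7 : Prop := ∀ A : AV, CMt A → ∃ X : AV, CMt X ∧ Fac A X ∧ HullAV X ∧ LinAV X

/-- **V8.** The main theorem for lines. -/
def St_V8 : Prop := ∀ X : AV, HullAV X → LinAV X → ∀ 𝒜 : Sys,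
  (∀ (Y : AV) (f : Y.H [⋀^Fin 2]→ₗ[ℚ] ℚ), IsHodge Y.per f → 𝒜.A Y (Fin 2) f) →
  (∀ f : (powAV X (Fin 4)).H [⋀^Fin 4]→ₗ[ℚ] ℚ, IsHodge (powAV X (Fin 4)).per f →
    𝒜.A (powAV X (Fin 4)) (Fin 4) f) →
  ∀ (P : AV) (n : ℕ), IsPower X P n → 𝒜.AllHodge P

end

end Pool.Agent.NH36.VC
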