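import Mathlib
import Pool.Agent.NH36.VC.StmD
import Pool.Agent.NH32.GpB

/-!
# Project VC, V8: the main theorem when all modules are lines
-/

set_option linter.unusedSectionVars false

namespace Pool.Agent.NH36.VC

open Matrix Module Pool.Agent.W437.HC Pool.Agent.W437.HD Pool.Agent.TH504.CB Pool.Agent.Y90
open Pool.Agent.NH32 Pool.Agent.NH32.Gp Pool.Agent.NH32.GJ18
open Pool.Agent.H204R3.CM (IsHodge)
open Pool.Agent.W548.Odd hiding cv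

noncomputable section

section

variable {g : ℕ} {Z : Matrix (Fin g) (Fin g) ℂ} {A : AV} {e : A.H ≃ₗ[ℚ] (Fin g ⊕ Fin g → ℚ)}
  {y yi : Matrix (Fin g ⊕ Fin g) (Fin g ⊕ Fin g) ℝ} {𝒜 : Sys}

/-- Invariant tensors of a degree in which the system contains the Hodge classes of the power. -/
theorem TQ_degP {m : ℕ} (hD : ∀ (f : (powAV A (Fin m)).H [⋀^Fin m]→ₗ[ℚ] ℚ),
      IsHodge (powAV A (Fin m)).per f → 𝒜.A (powAV A (Fin m)) (Fin m) f)
    (hc : Cht (A.per.comp e.symm.toLinearMap.toAddMonoidHom) (JR Z))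
    {c : (Fin m → Fin g ⊕ Fin g) → ℂ} (hcI : c ∈ InvL (Lr Z) (Fin m)) : c ∈ TQ e 𝒜 (Fin m) := by
  rw [mem_TQ]
  have h := mem_InvLr.1 hcI
  obtain ⟨n, z, l, hzl⟩ := tensor_expand c
  have h1 : fm e (id : Fin m → Fin m) c =
      ∑ j, z j • fm e (id : Fin m → Fin m) (cst ℂ (fun I => l j (c I))) := by
    conv_lhs => rw [hzl]
    have h2 := map_sum (fmL e (id : Fin m → Fin m)) (fun j => z j • cst ℂ (fun I => l j (c I)))
      Finset.univ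
    rw [← fmL_apply, h2]
    refine Finset.sum_congr rfl fun j _ => ?_
    rw [map_smul]
    rfl
  rw [h1]
  refine Submodule.sum_mem _ fun j _ => Submodule.smul_mem _ _ ?_
  rw [← fmQ_cast]
  exact RA_of (X := powAV A (Fin m)) (hD _ (fmQ_hodge hc id (kill_lam gal_LZ h (l j) _ DZ_mem)))

theorem fix_degP {m : ℕ} (hD : ∀ (f : (powAV A (Fin m)).H [⋀^Fin m]→ₗ[ℚ] ℚ),
      IsHodge (powAV A (Fin m)).per f → 𝒜.A (powAV A (Fin m)) (Fin m) f)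
    (hc : Cht (A.per.comp e.symm.toLinearMap.toAddMonoidHom) (JR Z))
    (hy : YD Z y yi) {u : USp (Oy yi)} (hu : u ∈ Fx (Oy yi) (TY e 𝒜 Z y yi))
    (x : (Fin m → Fin g ⊕ Fin g) → ℂ) (hx : x ∈ InvL (Ly Z y yi) (Fin m)) :
    kp (Fin m) (mt u) *ᵥ x = x :=
  hu _ _ (mem_TY.2 ⟨TQ_degP hD hc (hy.inv_to hx), hx⟩)

end

theorem t_V8 : St_V8 := by
  intro X hH hL 𝒜 h2 h4 P n hP
  have hX : Hul2 X := ⟨hH, fun d Δ hI hR hd => absurd (hL d Δ hI hR) hd⟩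
  have HY := Gm.hyp
  have hb := br_of coo_of (mi_of coo_of)
  obtain ⟨E, hE⟩ := X.pol
  obtain ⟨g, Z, hZ, e, hc, -⟩ := exists_ppavE X.span X.rank hE
  obtain ⟨y, yi, hy⟩ := exists_YD hZ
  obtain ⟨i, hP⟩ := hP
  refine allHodge_iso 𝒜 (isoP hP) (isoP_hom hP) ?_
  have hO := hy.isOm hZ.det
  have hld := hy.ld hZ
  have hHl := Gm.hull_ly (mi_of coo_of) hZ hc hy hX.1
  have hS : ∀ u ∈ Fx (Oy yi) (TY e 𝒜 Z y yi), FixS (Oy yi) (Ly Z y yi) u := by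
    intro u hu
    have hf2 := GJ18.fix_deg h2 hc hy hu
    refine ⟨hf2, fix_degP h4 hc hy hu, fun ε hε => ?_⟩
    obtain ⟨d, P, Q, hPQ, hQP, hI, hR⟩ := (mi_of coo_of g Z X e y yi hZ hc hy).1 ε hε
    have hd := hL d _ hI hR
    subst hd
    refine dl_line hO hld hf2 ⟨hε, ?_⟩ hPQ hQP
    rw [← hPQ, trace_mul_comm, hQP, trace_one, Fintype.card_fin, Nat.cast_one]
  have hfix : ∀ u ∈ Fx (Oy yi) (TY e 𝒜 Z y yi), ∀ (κ : Type) [Fintype κ] [DecidableEq κ],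
      ∀ x ∈ InvL (Ly Z y yi) κ, kp κ (mt u) *ᵥ x = x := by
    intro u hu κ _ _
    exact Gm.mainL HY hO hld hHl (hb g Z X e y yi hZ hc hy hX)
      (fixU lin_of hO hld hHl (hS u hu)) κ
  have hT := tan_div hZ h2 hc hy
  refine allHodge_of hc fun κ _ _ c hcH => ?_
  have h14 : kp κ (cm y)ᵀ *ᵥ (kp κ (cm yi)ᵀ *ᵥ cst ℂ c) = cst ℂ c := by
    rw [mulVec_mulVec, ← kp_mul, hy.clT, kp_one, one_mulVec]
  have h15 : kp κ (cm yi)ᵀ *ᵥ cst ℂ c ∈ InvL (Ly Z y yi) κ := by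
    refine hy.inv_from ?_
    rw [h14]
    exact inv_of_isH hcH
  have h16 := (mem_TY.1 (tannaka hT hO _ fun u hu => hfix u hu κ _ h15)).1
  rwa [h14] at h16

end

end Pool.Agent.NH36.VC
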