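import Mathlib
import Pool.Agent.NH36.VC.V8
import Pool.Agent.NH36.VH.Main

/-!
# Project VC: the main theorem from the pieces
-/

namespace Pool.Agent.NH36.VC

open Module Pool.Agent.Y90 Pool.Agent.NH32
open Pool.Agent.NH36.VH (CMp IsCMType VariationalSplitWeilFour SplitWeil spm' cm4')
open Pool.Agent.H204R3.CM (IsHodge)

theorem asm (v2 : Pool.Agent.NH36.VH.St_V2) (v5 : St_V5) (v7 : St_V7) (𝒜 : Sys)
    (h2 : ∀ (X : AV) (f : X.H [⋀^Fin 2]→ₗ[ℚ] ℚ), IsHodge X.per f → 𝒜.A X (Fin 2) f)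
    (hV : VariationalSplitWeilFour 𝒜) (A : AV) (hA : IsCMType A) : 𝒜.AllHodge A := by
  have hS : ∀ (Y : AV) (w : Y.H [⋀^Fin 4]→ₗ[ℚ] ℚ), SplitWeil Y w → 𝒜.A Y (Fin 4) w := by
    intro Y w h
    obtain ⟨X, e, hp, hA⟩ := spm' Y 4 w h 𝒜 h2
    exact hV X Y e w hp hA
  obtain ⟨E, hE⟩ := A.pol
  obtain ⟨z, hz⟩ := v2 A hA E hE
  obtain ⟨X, hX, hF, hH, hL⟩ := v7 A ⟨E, z, hz⟩
  have h4 : ∀ f : (powAV X (Fin 4)).H [⋀^Fin 4]→ₗ[ℚ] ℚ, IsHodge (powAV X (Fin 4)).per f →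
      𝒜.A (powAV X (Fin 4)) (Fin 4) f := by
    intro f hf
    obtain ⟨E', z', hz'⟩ := v5 X hX 4
    exact cm4' (powAV X (Fin 4)) E' z' hz' 𝒜 hS f hf
  refine fac_of.2.2 𝒜 A X hF (fun P n hP => t_V8 X hH hL 𝒜 h2 h4 P n hP) A 1 ?_
  refine ⟨fun _ => LinearMap.id, fun _ => ⟨LinearMap.id, fun _ => rfl⟩, ?_⟩
  constructor
  · intro v w h
    simp only [Fin.sum_univ_one, LinearMap.id_coe, id_eq] at h
    funext k
    rw [Subsingleton.elim k 0]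
    exact h
  · intro w
    exact ⟨fun _ => w, by simp⟩

end Pool.Agent.NH36.VC
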