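import Pool.Agent.NH36.VC.Stm

/-!
# Project VC: a cyclic vector for a commutative reduced algebra
-/

set_option autoImplicit false

namespace Pool.Agent.NH36.VH

open Module

namespace V1aux

variable {V : Type} [AddCommGroup V] [Module ℚ V] [FiniteDimensional ℚ V]

/-- the annihilator in `A` of a vector -/
def ann (A : Subalgebra ℚ (Module.End ℚ V)) (v : V) : Submodule ℚ (Module.End ℚ V) where
  carrier := {a | a ∈ A ∧ a v = 0}
  add_mem' := fun {a b} ha hb => ⟨A.add_mem ha.1 hb.1, by
    rw [LinearMap.add_apply, ha.2, hb.2, add_zero]⟩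
  zero_mem' := ⟨A.zero_mem, LinearMap.zero_apply v⟩
  smul_mem' := fun c a ha => ⟨A.smul_mem ha.1 c, by
    rw [LinearMap.smul_apply, ha.2, smul_zero]⟩

theorem exists_reg (A : Subalgebra ℚ (Module.End ℚ V)) (hc : ∀ a ∈ A, ∀ b ∈ A, a * b = b * a)
    (hr : ∀ a ∈ A, a * a = 0 → a = 0) (a : Module.End ℚ V) (ha : a ∈ A) :
    ∃ c ∈ A, a = a * a * c := by
  let L : A →ₗ[ℚ] A := LinearMap.mulLeft ℚ (⟨a, ha⟩ : A)
  have hL : ∀ x : A, ((L x : A) : Module.End ℚ V) = a * x := fun x => rfl
  have hk : LinearMap.ker (L ∘ₗ L) = LinearMap.ker L := by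
    apply le_antisymm
    · intro x hx
      rw [LinearMap.mem_ker] at hx ⊢
      have h1 : a * (a * (x : Module.End ℚ V)) = 0 := by
        have := congrArg (Subtype.val) hx
        exact this
      apply Subtype.ext
      rw [hL]
      show a * (x : Module.End ℚ V) = 0
      apply hr _ (A.mul_mem ha x.2)
      have h2 : (a * (x : Module.End ℚ V)) * (a * x) = (a * (a * x)) * x := by
        rw [← mul_assoc (a * (x : Module.End ℚ V)) a x, mul_assoc a (x : Module.End ℚ V) a,
          hc (x : Module.End ℚ V) x.2 a ha]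
      rw [h2, h1, zero_mul]
    · intro x hx
      rw [LinearMap.mem_ker] at hx ⊢
      rw [LinearMap.comp_apply, hx, map_zero]
  have hrg : LinearMap.range (L ∘ₗ L) = LinearMap.range L := by
    apply Submodule.eq_of_le_of_finrank_eq
    · rintro _ ⟨x, rfl⟩
      exact ⟨L x, rfl⟩
    · have h1 := LinearMap.finrank_range_add_finrank_ker L
      have h2 := LinearMap.finrank_range_add_finrank_ker (L ∘ₗ L)
      rw [hk] at h2
      omega
  have h3 : L 1 ∈ LinearMap.range (L ∘ₗ L) := by
    rw [hrg]
    exact ⟨1, rfl⟩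
  obtain ⟨c, h4⟩ := h3
  refine ⟨c, c.2, ?_⟩
  have h5 := congrArg (Subtype.val) h4
  have h6 : a * (a * (c : Module.End ℚ V)) = a * 1 := h5
  rw [mul_one] at h6
  rw [mul_assoc, h6]

end V1aux

open V1aux in
theorem t_V1 : St_V1 := by
  intro V _ _ _ A hc hr _
  obtain ⟨v₀, -, hv₀⟩ := WellFounded.has_min (measure (fun v : V => finrank ℚ (ann A v))).wf
    Set.univ ⟨0, trivial⟩
  refine ⟨v₀, fun a ha hav => ?_⟩
  by_contra ha0
  obtain ⟨c, hcA, hac⟩ := exists_reg A hc hr a ha
  set e : Module.End ℚ V := a * c with he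
  have heA : e ∈ A := A.mul_mem ha hcA
  have hee : e * e = e := by
    calc a * c * (a * c) = a * (c * a) * c := by simp only [mul_assoc]
      _ = a * (a * c) * c := by rw [hc c hcA a ha]
      _ = (a * a * c) * c := by rw [← mul_assoc a a c]
      _ = a * c := by rw [← hac]
  have he0 : e ≠ 0 := by
    intro h
    apply ha0
    rw [hac, mul_assoc, ← he, h, mul_zero]
  have hev : e v₀ = 0 := by
    rw [he, hc a ha c hcA, Module.End.mul_apply, hav, map_zero]
  obtain ⟨w, hw⟩ : ∃ w, e w ≠ 0 := by
    by_contra hcon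
    push Not at hcon
    exact he0 (LinearMap.ext hcon)
  have hlt : ann A (v₀ + e w) < ann A v₀ := by
    refine lt_of_le_of_ne ?_ ?_
    · rintro x ⟨hxA, hx⟩
      refine ⟨hxA, ?_⟩
      have h1 : x v₀ + x (e w) = 0 := by rw [← map_add, hx]
      have h2 : x (e v₀) + x (e (e w)) = 0 := by
        have h3 : e (x v₀ + x (e w)) = 0 := by rw [h1, map_zero]
        rw [map_add] at h3
        have h4 : ∀ y, e (x y) = x (e y) := fun y => by
          rw [← Module.End.mul_apply, ← Module.End.mul_apply, hc e heA x hxA]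
        rwa [h4, h4] at h3
      have h5 : e (e w) = e w := by rw [← Module.End.mul_apply, hee]
      rw [hev, map_zero, zero_add, h5] at h2
      rwa [h2, add_zero] at h1
    · intro h
      have h1 : e ∈ ann A (v₀ + e w) := by
        rw [h]
        exact ⟨heA, hev⟩
      have h2 : e (v₀ + e w) = 0 := h1.2
      rw [map_add, hev, zero_add, ← Module.End.mul_apply, hee] at h2
      exact hw h2
  exact hv₀ _ trivial (Submodule.finrank_lt_finrank_of_lt hlt)

end Pool.Agent.NH36.VH
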