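import Pool.Agent.NH36.VC.Stm
import Pool.Agent.NH36.VH.A2
import Pool.Agent.NH36.VH.C1
import Pool.Agent.NH36.VH.C2

/-!
# VC-2: abelian varieties of CM type (helper72)
-/

set_option autoImplicit false

namespace Pool.Agent.NH36.VH

open Module Matrix Pool.Agent.Y90 Pool.Agent.NH32
open Pool.Agent.H204R3.CM (IsHodge)

namespace V2

theorem rm_mul {N : ℕ} (A B : Matrix (Fin N) (Fin N) ℚ) : rm (A * B) = rm A * rm B :=
  (Rat.castHom ℝ).mapMatrix.map_mul A B

theorem rm_add {N : ℕ} (A B : Matrix (Fin N) (Fin N) ℚ) : rm (A + B) = rm A + rm B :=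
  (Rat.castHom ℝ).mapMatrix.map_add A B

theorem rm_tr {N : ℕ} (A : Matrix (Fin N) (Fin N) ℚ) : rm Aᵀ = (rm A)ᵀ := rfl

theorem rm_smul {N : ℕ} (c : ℚ) (A : Matrix (Fin N) (Fin N) ℚ) :
    rm (c • A) = (c : ℝ) • rm A := by
  ext i j
  simp [rm]

theorem rm_sum {N : ℕ} {ι : Type} (s : Finset ι) (f : ι → Matrix (Fin N) (Fin N) ℚ) :
    rm (∑ k ∈ s, f k) = ∑ k ∈ s, rm (f k) :=
  map_sum (Rat.castHom ℝ).mapMatrix f s

theorem rm_unit {N : ℕ} {A : Matrix (Fin N) (Fin N) ℚ} (h : IsUnit A) : IsUnit (rm A) :=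
  h.map (Rat.castHom ℝ).mapMatrix

theorem rm_mulVec {N : ℕ} (A : Matrix (Fin N) (Fin N) ℚ) (v : Fin N → ℚ) :
    rm A *ᵥ rv v = rv (A *ᵥ v) := by
  funext i
  simp only [rm, rv, mulVec, dotProduct, Matrix.map_apply]
  push_cast
  rfl

theorem rv_dot {N : ℕ} (v w : Fin N → ℚ) : rv v ⬝ᵥ rv w = ((v ⬝ᵥ w : ℚ) : ℝ) := by
  simp only [rv, dotProduct]
  push_cast
  rfl

/-- homomorphisms commute with the complex structure -/
theorem comm {X : AV} {N : ℕ} {e : X.H ≃ₗ[ℚ] (Fin N → ℚ)} {L : X.T ≃ₗ[ℝ] (Fin N → ℝ)}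
    {J : Matrix (Fin N) (Fin N) ℝ} (hc : Chart X e L J) {f : X.H →ₗ[ℚ] X.H} (hf : IsHom X X f)
    (B : Matrix (Fin N) (Fin N) ℚ) (hB : ∀ v, B *ᵥ e v = e (f v)) : J * rm B = rm B * J := by
  obtain ⟨Ψ, hΨ⟩ := hf
  have h1 : ∀ t, L (Ψ t) = rm B *ᵥ L t := by
    intro t
    have ht : t ∈ Submodule.span ℝ (Set.range X.per) := by rw [X.span]; trivial
    induction ht using Submodule.span_induction with
    | mem t ht =>
      obtain ⟨v, rfl⟩ := ht
      rw [hΨ, hc.per, hc.per, rm_mulVec, hB]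
    | zero => rw [map_zero, map_zero, mulVec_zero]
    | add s t _ _ hs ht => rw [map_add, map_add, map_add, mulVec_add, hs, ht]
    | smul r t _ ht =>
      have h2 : Ψ (r • t) = r • Ψ t := by
        rw [A2.re_smul, A2.re_smul, map_smul]
      rw [h2, map_smul, map_smul, mulVec_smul, ht]
  have h2 : ∀ t, (J * rm B) *ᵥ L t = (rm B * J) *ᵥ L t := by
    intro t
    rw [← mulVec_mulVec, ← mulVec_mulVec, ← h1, ← hc.i, ← hc.i, ← h1, map_smul Ψ]
  apply Matrix.toLin'.injective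
  apply LinearMap.ext
  intro x
  obtain ⟨t, rfl⟩ := L.surjective x
  rw [Matrix.toLin'_apply, Matrix.toLin'_apply, h2]

end V2

open V2 in
theorem t_V2 (v1 : St_V1) : St_V2 := by
  intro X hX E hE0
  obtain ⟨A, hAc, hAr, hAd, hAh⟩ := hX
  obtain ⟨N, e, L, J, M, hc, hP, hE⟩ := t_A2 X E hE0
  have hN : finrank ℚ A = N := by
    rw [hAd, e.finrank_eq, Module.finrank_fin_fun]
  obtain ⟨a⟩ : Nonempty (Basis (Fin N) ℚ A) := ⟨hN ▸ finBasis ℚ A⟩
  obtain ⟨v₀, hv₀⟩ := v1 X.H A hAc hAr hAd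
  obtain ⟨Φ, hΦ⟩ : ∃ Φ : Module.End ℚ X.H →ₐ[ℚ] Matrix (Fin N) (Fin N) ℚ,
      ∀ f v, Φ f *ᵥ e v = e (f v) := by
    refine ⟨((LinearMap.toMatrixAlgEquiv (Basis.ofEquivFun e) :
      Module.End ℚ X.H ≃ₐ[ℚ] Matrix (Fin N) (Fin N) ℚ) : _ →ₐ[ℚ] _), fun f v => ?_⟩
    have h1 := LinearMap.toMatrix_mulVec_repr (Basis.ofEquivFun e) (Basis.ofEquivFun e) f v
    exact h1
  obtain ⟨B, hB⟩ : ∃ B : Fin N → Matrix (Fin N) (Fin N) ℚ, ∀ k, B k = Φ (a k : Module.End ℚ X.H) :=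
    ⟨_, fun k => rfl⟩
  have hJB : ∀ k, J * rm (B k) = rm (B k) * J := fun k =>
    comm hc (hAh _ (a k).2) (B k) (fun v => by rw [hB, hΦ])
  have hBB : ∀ k l, rm (B k) * rm (B l) = rm (B l) * rm (B k) := by
    intro k l
    rw [← rm_mul, ← rm_mul, hB, hB, ← map_mul, ← map_mul, hAc _ (a k).2 _ (a l).2]
  -- the cyclic vector
  obtain ⟨W, hW⟩ : ∃ W : Matrix (Fin N) (Fin N) ℚ, ∀ k, W.row k = B k *ᵥ e v₀ :=
    ⟨Matrix.of fun k => B k *ᵥ e v₀, fun k => rfl⟩
  have hWu : IsUnit W := by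
    rw [← Matrix.linearIndependent_rows_iff_isUnit, Fintype.linearIndependent_iff]
    intro g hg
    have h1 : ((∑ k, g k • a k : A) : Module.End ℚ X.H) v₀ = 0 := by
      apply e.injective
      rw [map_zero, ← hΦ]
      have h2 : Φ ((∑ k, g k • a k : A) : Module.End ℚ X.H) = ∑ k, g k • B k := by
        rw [AddSubmonoidClass.coe_finsetSum, map_sum]
        refine Finset.sum_congr rfl fun k _ => ?_
        rw [hB]
        exact map_smul Φ (g k) (a k : Module.End ℚ X.H)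
      rw [h2, Matrix.sum_mulVec, ← hg]
      refine Finset.sum_congr rfl fun k _ => ?_
      rw [Matrix.smul_mulVec, hW]
    have h2 := hv₀ _ (∑ k, g k • a k : A).2 h1
    have h3 : (∑ k, g k • a k : A) = 0 := Subtype.ext h2
    exact Fintype.linearIndependent_iff.1 a.linearIndependent g h3
  have hWu' := rm_unit hWu
  obtain ⟨x, hx⟩ : ∃ x : Fin N → ℝ, J *ᵥ rv (e v₀) = ∑ k, x k • (rm (B k) *ᵥ rv (e v₀)) := by
    refine ⟨(J *ᵥ rv (e v₀)) ᵥ* (rm W)⁻¹, ?_⟩
    have h1 : ((J *ᵥ rv (e v₀)) ᵥ* (rm W)⁻¹) ᵥ* rm W = J *ᵥ rv (e v₀) := by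
      rw [Matrix.vecMul_vecMul, Matrix.nonsing_inv_mul _ ((Matrix.isUnit_iff_isUnit_det _).1 hWu'),
        Matrix.vecMul_one]
    conv_lhs => rw [← h1]
    rw [Matrix.vecMul_eq_sum]
    refine Finset.sum_congr rfl fun k _ => ?_
    rw [rm_mulVec, ← hW]
    rfl
  -- the complex structure is in the real span
  have hJ : J = ∑ k, x k • rm (B k) := by
    obtain ⟨D, hD⟩ : ∃ D, D = J - ∑ k, x k • rm (B k) := ⟨_, rfl⟩
    have h1 : ∀ l, D * rm (B l) = rm (B l) * D := by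
      intro l
      rw [hD, sub_mul, mul_sub, hJB, Finset.sum_mul, Finset.mul_sum]
      congr 1
      refine Finset.sum_congr rfl fun k _ => ?_
      rw [Matrix.smul_mul, Matrix.mul_smul, hBB]
    have h2 : D *ᵥ rv (e v₀) = 0 := by
      rw [hD, Matrix.sub_mulVec, hx, Matrix.sum_mulVec, sub_eq_zero]
      refine Finset.sum_congr rfl fun k _ => ?_
      rw [Matrix.smul_mulVec]
    have h3 : ∀ l, D *ᵥ (rm W).row l = 0 := by
      intro l
      have h4 : (rm W).row l = rm (B l) *ᵥ rv (e v₀) := by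
        rw [rm_mulVec, ← hW]
        rfl
      rw [h4, mulVec_mulVec, h1, ← mulVec_mulVec, h2, mulVec_zero]
    have h5 : D * (rm W)ᵀ = 0 := by
      ext i l
      exact congrFun (h3 l) i
    have h6 : IsUnit (rm W)ᵀ := by
      rw [Matrix.isUnit_iff_isUnit_det, Matrix.det_transpose, ← Matrix.isUnit_iff_isUnit_det]
      exact hWu'
    have h7 : D = 0 := by
      rw [← Matrix.mul_one D, ← Matrix.mul_nonsing_inv _ ((Matrix.isUnit_iff_isUnit_det _).1 h6),
        ← Matrix.mul_assoc, h5, Matrix.zero_mul]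
    rw [h7] at hD
    exact (sub_eq_zero.1 hD.symm)
  -- rational solutions
  obtain ⟨C, hC⟩ : ∃ C : Fin N → Matrix (Fin N) (Fin N) ℚ, ∀ k, C k = (B k)ᵀ * M + M * B k :=
    ⟨_, fun k => rfl⟩
  have hCr : ∀ k, rm (C k) = (rm (B k))ᵀ * rm M + rm M * rm (B k) := by
    intro k
    rw [hC, rm_add, rm_mul, rm_mul, rm_tr]
  obtain ⟨ε, hε, hε2⟩ := t_C2 N 0 J M hP
  obtain ⟨S, hS⟩ : ∃ S : ℝ, S = ∑ i, ∑ j, ∑ k, |rm (B k) i j| := ⟨_, rfl⟩
  have hS0 : 0 ≤ S := by
    rw [hS]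
    exact Finset.sum_nonneg fun i _ => Finset.sum_nonneg fun j _ => Finset.sum_nonneg fun k _ =>
      abs_nonneg _
  obtain ⟨y, hy, hyx⟩ := C1.approx (I := Fin N) (I' := Fin N × Fin N)
    (fun p => Fintype.linearCombination ℝ (fun k => ((C k p.1 p.2 : ℚ) : ℝ)))
    (fun p v => ⟨∑ k, v k * C k p.1 p.2, by
      rw [Fintype.linearCombination_apply]
      push_cast
      rfl⟩) x
    (fun p => by
      rw [Fintype.linearCombination_apply]
      have h1 : (Jᵀ * rm M + rm M * J) p.1 p.2 = 0 := by rw [hP.sp]; rfl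
      have h2 : Jᵀ * rm M + rm M * J = ∑ k, x k • rm (C k) := by
        rw [hJ, Matrix.transpose_sum, Finset.sum_mul, Finset.mul_sum, ← Finset.sum_add_distrib]
        refine Finset.sum_congr rfl fun k _ => ?_
        rw [Matrix.transpose_smul, Matrix.smul_mul, Matrix.mul_smul, ← smul_add, hCr]
      rw [h2, Matrix.sum_apply] at h1
      exact h1)
    (ε / (S + 1)) (div_pos hε (by linarith))
  obtain ⟨z, hz⟩ : ∃ z : A, z = ∑ k, y k • a k := ⟨_, rfl⟩
  have hzΦ : Φ (z : Module.End ℚ X.H) = ∑ k, y k • B k := by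
    rw [hz, AddSubmonoidClass.coe_finsetSum, map_sum]
    refine Finset.sum_congr rfl fun k _ => ?_
    rw [hB]
    exact map_smul Φ (y k) (a k : Module.End ℚ X.H)
  have hzsk : (Φ (z : Module.End ℚ X.H))ᵀ * M + M * Φ (z : Module.End ℚ X.H) = 0 := by
    have h2 : (Φ (z : Module.End ℚ X.H))ᵀ * M + M * Φ (z : Module.End ℚ X.H) =
        ∑ k, y k • C k := by
      rw [hzΦ, Matrix.transpose_sum, Finset.sum_mul, Finset.mul_sum, ← Finset.sum_add_distrib]
      refine Finset.sum_congr rfl fun k _ => ?_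
      rw [Matrix.transpose_smul, Matrix.smul_mul, Matrix.mul_smul, ← smul_add, hC]
    rw [h2]
    ext i j
    have h3 := hy (i, j)
    rw [Fintype.linearCombination_apply] at h3
    rw [Matrix.sum_apply]
    have h4 : ((∑ k, y k * C k i j : ℚ) : ℝ) = 0 := by
      push_cast
      exact h3
    exact_mod_cast h4
  have hznear : ∀ i j, |rm (Φ (z : Module.End ℚ X.H)) i j - J i j| < ε := by
    intro i j
    have h1 : rm (Φ (z : Module.End ℚ X.H)) i j - J i j =
        ∑ k, ((y k : ℝ) - x k) * rm (B k) i j := by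
      rw [hzΦ, rm_sum, hJ, Matrix.sum_apply, Matrix.sum_apply, ← Finset.sum_sub_distrib]
      refine Finset.sum_congr rfl fun k _ => ?_
      rw [rm_smul, Matrix.smul_apply, Matrix.smul_apply, smul_eq_mul, smul_eq_mul, sub_mul]
    rw [h1]
    have h2 : ∑ k, |rm (B k) i j| ≤ S := by
      rw [hS]
      refine le_trans ?_ (Finset.single_le_sum (f := fun i => ∑ j, ∑ k, |rm (B k) i j|)
        (fun i _ => Finset.sum_nonneg fun j _ => Finset.sum_nonneg fun k _ => abs_nonneg _)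
        (Finset.mem_univ i))
      exact Finset.single_le_sum (f := fun j => ∑ k, |rm (B k) i j|)
        (fun j _ => Finset.sum_nonneg fun k _ => abs_nonneg _) (Finset.mem_univ j)
    have hδ : 0 < ε / (S + 1) := div_pos hε (by linarith)
    calc |∑ k, ((y k : ℝ) - x k) * rm (B k) i j|
        ≤ ∑ k, |((y k : ℝ) - x k) * rm (B k) i j| := Finset.abs_sum_le_sum_abs _ _
      _ ≤ ∑ k, (ε / (S + 1)) * |rm (B k) i j| := by
          refine Finset.sum_le_sum fun k _ => ?_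
          rw [abs_mul]
          exact mul_le_mul_of_nonneg_right (hyx k).le (abs_nonneg _)
      _ = (ε / (S + 1)) * ∑ k, |rm (B k) i j| := by rw [Finset.mul_sum]
      _ ≤ (ε / (S + 1)) * S := mul_le_mul_of_nonneg_left h2 hδ.le
      _ < (ε / (S + 1)) * (S + 1) := mul_lt_mul_of_pos_left (by linarith) hδ
      _ = ε := by field_simp
  refine ⟨(z : Module.End ℚ X.H), hAh _ z.2, hE0, ?_, ?_⟩
  · intro v w
    rw [hE, hE, ← hΦ, ← hΦ, ← Matrix.vecMul_transpose, ← Matrix.dotProduct_mulVec,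
      mulVec_mulVec, mulVec_mulVec, eq_neg_of_add_eq_zero_left hzsk, Matrix.neg_mulVec,
      dotProduct_neg]
  · intro v hv
    have h1 := (hε2 _ hznear).1 (rv (e v)) (by
      intro h
      apply hv
      apply e.injective
      rw [map_zero]
      funext k
      have := congrFun h k
      simpa [rv] using this)
    rw [rm_mulVec, rm_mulVec, rv_dot, hΦ, ← hE] at h1
    exact_mod_cast h1

end Pool.Agent.NH36.VH
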