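import Mathlib
import Pool.Agent.NH36.VC.StmD
import Pool.Agent.NH36.VH.B0
import Pool.Agent.NH36.VH.B6c
import Pool.Agent.NH36.VH.B7
import Pool.Agent.NH36.VH.R1
import Pool.Agent.NH36.VH.R2

/-!
# Project VC, V3: the modules of a variety of CM type are lines
-/

namespace Pool.Agent.NH36.VC

open Matrix Module Pool.Agent.Y90 Pool.Agent.NH32

noncomputable section

namespace V3

open Pool.Agent.NH36.VH (CMp)

/-- eigenfunctionals -/
theorem eig {X : AV} {E : X.H → X.H → ℚ} {z : X.H →ₗ[ℚ] X.H} (hX : CMp X E z) :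
    ∃ (Q : Fin (finrank ℚ X.H) → (X.H →ₗ[ℚ] ℂ)) (l : Fin (finrank ℚ X.H) → ℂ),
      LinearIndependent ℂ Q ∧ ∀ j v, Q j (z v) = l j * Q j v := by
  obtain ⟨S, hS⟩ := VH.B7.form hX.pol z
  have alt := VH.B7.skw hX.pol
  obtain ⟨Q, l, hQ, hl, -⟩ := VH.t_B6c VH.t_R1 VH.t_R2 X.H z S
    (fun v w => by rw [hS, hS, hX.sk, alt (z w) v, neg_neg])
    (fun v hv => by rw [hS]; exact hX.pos v hv)
    (fun v w => by rw [hS, hS, hX.sk (z v) w])
    (fun v hv => by
      by_contra hne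
      have h := hX.pos v hne
      rw [hv] at h
      have h' : E 0 v = 0 := by
        have := hS 0 v
        rw [map_zero, map_zero, LinearMap.zero_apply] at this
        exact this.symm
      rw [h'] at h
      exact lt_irrefl _ h)
  exact ⟨Q, l, hQ, fun j => (hl j).1⟩

theorem isD_eig {X : AV} {E : X.H → X.H → ℚ} {z : X.H →ₗ[ℚ] X.H} (hX : CMp X E z)
    {Q : X.H →ₗ[ℚ] ℂ} {l : ℂ} (hQ : Q ≠ 0) (h : ∀ v, Q (z v) = l * Q v) (σ : ℂ ≃+* ℂ) :
    ∃ c : ℂ, IsD X σ Q (c • Q) := by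
  have h0 : H10 X (0 : X.H →ₗ[ℚ] ℂ) := ⟨0, fun w => rfl⟩
  have ht : ∀ τ : ℂ ≃+* ℂ, tw τ (0 : X.H →ₗ[ℚ] ℂ) = 0 := by
    intro τ
    ext w
    show τ 0 = 0
    exact map_zero τ
  have hne : (tw σ.symm Q : X.H →ₗ[ℚ] ℂ) ≠ 0 := by
    intro h1
    apply hQ
    ext w
    have h2 : σ.symm (Q w) = 0 := LinearMap.congr_fun h1 w
    rw [LinearMap.zero_apply]
    exact (map_eq_zero_iff σ.symm σ.symm.injective).1 h2
  have h1 := (VH.t_B0 X E z hX (tw σ.symm Q) (σ.symm l) hne (fun v => by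
    show σ.symm (Q (z v)) = σ.symm l * σ.symm (Q v)
    rw [h, map_mul])).2
  rcases h1 with ⟨-, h1⟩ | ⟨-, h1⟩
  · refine ⟨1, Q, 0, (add_zero _).symm, ?_, h1, ?_⟩
    · rw [one_smul, sub_zero]
    · rw [ht, ht]
      exact h0
  · refine ⟨-1, 0, Q, (zero_add _).symm, ?_, ?_, h1⟩
    · rw [neg_smul, one_smul, zero_sub]
    · rw [ht]
      exact h0

theorem isD_uniq {X : AV} {σ : ℂ ≃+* ℂ} {f f' g' : X.H →ₗ[ℚ] ℂ} (h : IsD X σ f f')
    (h' : IsD X σ f g') : f' = g' := by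
  have h1 := GJ14.IsD_add h (GJ14.IsD_smul (-1) h')
  have e1 : f + (-1 : ℂ) • f = 0 := by rw [neg_smul, one_smul, add_neg_cancel]
  rw [e1] at h1
  have h2 := GJ14.IsD_zero_eq h1
  rw [neg_smul, one_smul, ← sub_eq_add_neg, sub_eq_zero] at h2
  exact h2

end V3

open V3 in
/-- **V3.** The modules of a variety of CM type are lines. -/
theorem t_V3 : St_V3 := by
  rintro X ⟨E, z, hX⟩ d Δ ⟨hd, hI⟩ ⟨P, hP, hD⟩
  obtain ⟨Q, l, hQ, hl⟩ := eig hX
  have hc : ∀ (σ : ℂ ≃+* ℂ) j, ∃ c : ℂ, IsD X σ (Q j) (c • Q j) := fun σ j =>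
    isD_eig hX (hQ.ne_zero j) (hl j) σ
  choose c hc using hc
  have hcard : Fintype.card (Fin (finrank ℚ X.H)) = finrank ℂ (X.H →ₗ[ℚ] ℂ) := by
    rw [Fintype.card_fin, Module.finrank_linearMap, Module.finrank_self, mul_one]
  let QB : Basis (Fin (finrank ℚ X.H)) ℂ (X.H →ₗ[ℚ] ℂ) :=
    Basis.mk hQ (hQ.span_eq_top_of_card_eq_finrank' hcard).ge
  have hQB : ∀ j, QB j = Q j := fun j => Basis.mk_apply hQ _ j
  have hrepr : ∀ (σ : ℂ ≃+* ℂ) (f f' : X.H →ₗ[ℚ] ℂ), IsD X σ f f' → ∀ j,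
      QB.repr f' j = c σ j * QB.repr f j := by
    intro σ f f' hf j
    have h1 := GJ14.IsD_sum Finset.univ (fun i => QB.repr f i) Q (fun i => c σ i • Q i) (hc σ)
    have e1 : ∑ i, QB.repr f i • Q i = f := by
      conv_rhs => rw [← QB.sum_repr f]
      exact Finset.sum_congr rfl fun i _ => by rw [hQB]
    rw [e1] at h1
    have h2 := isD_uniq hf h1
    have e2 : f' = ∑ i, (c σ i * QB.repr f i) • QB i := by
      rw [h2]
      refine Finset.sum_congr rfl fun i _ => ?_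
      rw [hQB, smul_smul, mul_comm]
    rw [e2, QB.repr_sum_self]
  have hP0 : P ⟨0, hd⟩ ≠ 0 := hP.ne_zero _
  let r : Fin d → Fin (finrank ℚ X.H) → ℂ := fun i j => QB.repr (P i) j
  have hr : ∀ σ k j, ∑ i, Δ σ i k * r i j = c σ j * r k j := by
    intro σ k j
    have h1 := hrepr σ _ _ (hD σ k) j
    refine Eq.trans ?_ h1
    rw [map_sum, Finsupp.finsetSum_apply]
    refine Finset.sum_congr rfl fun i _ => ?_
    rw [map_smul, Finsupp.smul_apply, smul_eq_mul]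
  obtain ⟨τ, hτ⟩ : ∃ τ, r ⟨0, hd⟩ τ ≠ 0 := by
    by_contra hcon
    push Not at hcon
    apply hP0
    have h1 : QB.repr (P ⟨0, hd⟩) = 0 := Finsupp.ext hcon
    exact (LinearEquiv.map_eq_zero_iff _).1 h1
  let φ : (Fin d → ℂ) →ₗ[ℂ] ℂ := Fintype.linearCombination ℂ fun i => r i τ
  have hφ : ∀ w, φ w = ∑ i, w i * r i τ := by
    intro w
    rw [Fintype.linearCombination_apply]
    simp only [smul_eq_mul]
  have hinv : ∀ σ w, φ (Δ σ *ᵥ w) = c σ τ * φ w := by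
    intro σ w
    rw [hφ, hφ, Finset.mul_sum]
    simp only [Matrix.mulVec, dotProduct, Finset.sum_mul]
    rw [Finset.sum_comm]
    refine Finset.sum_congr rfl fun j _ => ?_
    have h1 := hr σ j τ
    have h2 : c σ τ * (w j * r j τ) = w j * (c σ τ * r j τ) := by ring
    rw [h2, ← h1, Finset.mul_sum]
    refine Finset.sum_congr rfl fun i _ => ?_
    ring
  have hs : φ (Pi.single ⟨0, hd⟩ 1) = r ⟨0, hd⟩ τ := by
    rw [hφ, Finset.sum_eq_single ⟨0, hd⟩]
    · rw [Pi.single_eq_same, one_mul]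
    · intro i _ hne
      rw [Pi.single_eq_of_ne hne, zero_mul]
    · intro h
      exact absurd (Finset.mem_univ _) h
  have hker : LinearMap.ker φ = ⊥ := by
    rcases hI (LinearMap.ker φ) (fun σ w hw => by
      rw [LinearMap.mem_ker] at hw ⊢
      rw [hinv, hw, mul_zero]) with h | h
    · exact h
    · exfalso
      have h1 : (Pi.single ⟨0, hd⟩ 1 : Fin d → ℂ) ∈ LinearMap.ker φ := by
        rw [h]
        exact Submodule.mem_top
      rw [LinearMap.mem_ker, hs] at h1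
      exact hτ h1
  have h1 := LinearMap.finrank_le_finrank_of_injective (LinearMap.ker_eq_bot.1 hker)
  rw [Module.finrank_fin_fun, Module.finrank_self] at h1
  omega

end

end Pool.Agent.NH36.VC
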