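import Pool.Agent.NH36.VC.StmD

/-!
# Project VC, V4 and V5: products and powers of varieties of CM type
-/

set_option autoImplicit false

namespace Pool.Agent.NH36.VC

open Matrix Module Pool.Agent.Y90 Pool.Agent.NH32
open Pool.Agent.NH36.VH (CMp IsCMType)

namespace V4a

theorem nn {X : AV} {E : X.H → X.H → ℚ} {z : X.H →ₗ[ℚ] X.H} (h : CMp X E z) (v : X.H) :
    0 ≤ E (z v) v := by
  by_cases hv : v = 0
  · subst hv
    rw [map_zero]
    obtain ⟨Ψ, h1, h2, h3, h4⟩ := h.pol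
    have h5 := h4 0 0
    rw [map_zero, GJ14.psi_zero h1, Complex.zero_im] at h5
    have h6 : E 0 0 = 0 := by exact_mod_cast h5.symm
    rw [h6]
  · exact (h.pos v hv).le

end V4a

open V4a in
/-- **V4.** -/
theorem t_V4 : St_V4 := by
  rintro X Y ⟨E, z, h⟩ ⟨F, w, g⟩
  refine ⟨fun u v => E u.1 v.1 + F u.2 v.2, (LinearMap.prodMap z w : X.H × Y.H →ₗ[ℚ] X.H × Y.H),
    ⟨?_, ?_, ?_, ?_⟩⟩
  · obtain ⟨Ψ, hΨ⟩ := h.hom
    obtain ⟨Φ, hΦ⟩ := g.hom
    refine ⟨(LinearMap.prodMap Ψ Φ : X.T × Y.T →ₗ[ℂ] X.T × Y.T), fun v => ?_⟩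
    change (Ψ (X.per v.1), Φ (Y.per v.2)) = (X.per (z v.1), Y.per (w v.2))
    rw [hΨ, hΦ]
  · exact GJ14.polP h.pol g.pol
  · intro u v
    change E (z u.1) v.1 + F (w u.2) v.2 = -(E u.1 (z v.1) + F u.2 (w v.2))
    rw [h.sk, g.sk]
    ring
  · intro v hv
    change 0 < E (z v.1) v.1 + F (w v.2) v.2
    by_cases h1 : v.1 = 0
    · have h2 : v.2 ≠ 0 := fun h2 => hv (Prod.ext h1 h2)
      exact add_pos_of_nonneg_of_pos (nn h _) (g.pos _ h2)
    · exact add_pos_of_pos_of_nonneg (h.pos _ h1) (nn g _)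

open V4a in
/-- **V5.** -/
theorem t_V5 : St_V5 := by
  rintro X ⟨E, z, h⟩ n
  refine ⟨fun u v => ∑ i, E ((u : Fin n → X.H) i) ((v : Fin n → X.H) i), GJ14.mpI z n,
    ⟨GJ14.mpI_hom h.hom n, polI h.pol (Fin n), ?_, ?_⟩⟩
  · intro u v
    change ∑ i, E (z ((u : Fin n → X.H) i)) ((v : Fin n → X.H) i) =
      -∑ i, E ((u : Fin n → X.H) i) (z ((v : Fin n → X.H) i))
    rw [← Finset.sum_neg_distrib]
    exact Finset.sum_congr rfl fun i _ => h.sk _ _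
  · intro v hv
    change 0 < ∑ i, E (z ((v : Fin n → X.H) i)) ((v : Fin n → X.H) i)
    obtain ⟨i, hi⟩ := Function.ne_iff.1 hv
    exact Finset.sum_pos' (fun j _ => nn h _) ⟨i, Finset.mem_univ _, h.pos _ hi⟩

end Pool.Agent.NH36.VC
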