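import Mathlib
import Pool.Agent.NH36.VC.StmD
import Pool.Agent.NH32.GJ12

/-!
# Project VC, V6: elementary varieties of CM type

The construction is that of `Pool.Agent.NH32.cm_of`; here the additional property `IsCMType`.
-/

set_option linter.unusedSectionVars false

namespace Pool.Agent.NH36.VC

open Matrix Module Pool.Agent.Y90 Pool.Agent.NH32
open Pool.Agent.NH36.VH (IsCMType)

noncomputable section

namespace V6

open GJ12

variable {K : Type} [Field K] [NumberField K] {Φ : Set (K →+* ℂ)}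

theorem lmul_inj : Function.Injective (Algebra.lmul ℚ K) := by
  intro x y h
  have h1 := LinearMap.congr_fun h (1 : K)
  rw [Algebra.coe_lmul_eq_mul, LinearMap.mul_apply', LinearMap.mul_apply', mul_one, mul_one] at h1
  exact h1

/-- the multiplication on the tangent space -/
def tang (Φ : Set (K →+* ℂ)) (x : K) : (Φ → ℂ) →ₗ[ℂ] (Φ → ℂ) :=
  LinearMap.pi fun τ => (τ.1 x) • LinearMap.proj τ

theorem tang_apply (x : K) (u : Φ → ℂ) (τ : Φ) : tang Φ x u τ = τ.1 x * u τ := rfl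

theorem cmtype (hΦ : ∀ τ, GJ12.cc τ ∈ Φ ↔ τ ∉ Φ) (hpol : ∃ E : K → K → ℚ, IsPolarization (per Φ) E) :
    IsCMType (cmAV hΦ hpol) := by
  have h1 : ∀ a ∈ (Algebra.lmul ℚ K).range, ∀ b ∈ (Algebra.lmul ℚ K).range, a * b = b * a := by
    rintro _ ⟨x, rfl⟩ _ ⟨y, rfl⟩
    change Algebra.lmul ℚ K x * Algebra.lmul ℚ K y = Algebra.lmul ℚ K y * Algebra.lmul ℚ K x
    rw [← map_mul, ← map_mul, mul_comm]
  have h2 : ∀ a ∈ (Algebra.lmul ℚ K).range, a * a = 0 → a = 0 := by
    rintro _ ⟨x, rfl⟩ h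
    change Algebra.lmul ℚ K x * Algebra.lmul ℚ K x = 0 at h
    change Algebra.lmul ℚ K x = 0
    rw [← map_mul] at h
    have h3 : x * x = 0 := lmul_inj (h.trans (map_zero _).symm)
    rw [mul_self_eq_zero.1 h3, map_zero]
  have h3 : finrank ℚ (Algebra.lmul ℚ K).range = finrank ℚ K :=
    (AlgEquiv.ofInjective (Algebra.lmul ℚ K) lmul_inj).toLinearEquiv.finrank_eq.symm
  have h4 : ∀ a ∈ (Algebra.lmul ℚ K).range, IsHom (cmAV hΦ hpol) (cmAV hΦ hpol) a := by
    rintro _ ⟨x, rfl⟩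
    refine ⟨tang Φ x, fun v => ?_⟩
    funext τ
    exact (map_mul τ.1 x v).symm
  exact ⟨(Algebra.lmul ℚ K).range, h1, h2, h3, h4⟩

end V6

open GJ12 in
/-- **V6.** Elementary varieties of CM type. -/
theorem t_V6 : St_V6 := by
  classical
  intro K hK hst hcj F hF1 hF2 hF3
  have _ : NumberField K := ⟨⟩
  let rs : (ℂ ≃+* ℂ) → (K →+* ℂ) := fun σ => (σ : ℂ →+* ℂ).comp K.subtype
  have hrs : ∀ τ : K →+* ℂ, ∃ σ, rs σ = τ := fun τ => Y4.exists_aut_emb K.subtype τ
  have hval : ∀ (τ : K →+* ℂ) x, τ x ∈ K := by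
    intro τ x
    obtain ⟨σ, rfl⟩ := hrs τ
    exact hst σ x.1 x.2
  have hinvK : ∀ σ τ : ℂ ≃+* ℂ, (∀ z ∈ K, σ z = τ z) → ∀ z ∈ K, σ.symm z = τ.symm z := by
    intro σ τ h z hz
    have h1 : σ.symm z ∈ K := hst σ.symm z hz
    have h2 := h _ h1
    rw [RingEquiv.apply_symm_apply] at h2
    have h3 := congrArg τ.symm h2
    rw [RingEquiv.symm_apply_apply] at h3
    exact h3.symm
  let Φ : Set (K →+* ℂ) := {τ | ∃ σ, F σ = 1 ∧ τ = rs σ.symm}
  have hmem : ∀ σ, rs σ.symm ∈ Φ ↔ F σ = 1 := by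
    intro σ
    constructor
    · rintro ⟨ρ, hρ, h⟩
      rw [← hρ]
      refine hF3 σ ρ ?_
      have h1 := hinvK σ.symm ρ.symm fun z hz => by
        have := DFunLike.congr_fun h (⟨z, hz⟩ : K)
        exact this
      exact h1
    · intro h
      exact ⟨σ, h, rfl⟩
  have hcc : ∀ σ : ℂ ≃+* ℂ, GJ12.cc (rs σ.symm) = rs (cj.trans σ).symm := by
    intro σ
    ext x
    rfl
  have hΦ : ∀ τ, GJ12.cc τ ∈ Φ ↔ τ ∉ Φ := by
    intro τ
    obtain ⟨σ, rfl⟩ := hrs τ
    have h1 : rs σ = rs σ.symm.symm := rfl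
    rw [h1, hcc, hmem, hmem, hF2]
    rcases hF1 σ.symm with h | h <;> rw [h] <;> decide
  let c : K →+* K := ((cj : ℂ →+* ℂ).comp K.subtype).codRestrict K fun x => hst cj x.1 x.2
  have hc : ∀ (τ : K →+* ℂ) x, τ (c x) = starRingEnd ℂ (τ x) := by
    intro τ x
    obtain ⟨σ, rfl⟩ := hrs τ
    exact hcj σ x.1 x.2
  have hcc' : ∀ x, c (c x) = x := fun x => Subtype.ext (Complex.conj_conj x.1)
  have hpol := exists_pol hΦ c hc hcc'
  refine ⟨cmAV hΦ hpol, V6.cmtype hΦ hpol, ?_, ?_⟩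
  · refine ⟨fun _ => em K.subtype, ?_, fun σ j => ?_⟩
    · have hne : em K.subtype ≠ 0 := by
        intro h
        have h1 := DFunLike.congr_fun h (1 : K)
        have h2 : em K.subtype (1 : K) = 1 := rfl
        exact one_ne_zero (h2.symm.trans h1)
      have hli : LinearIndependent ℂ (fun _ : Fin 1 => em K.subtype) :=
        LinearIndependent.of_subsingleton 0 hne
      exact hli
    · have h1 : (∑ i : Fin 1, lineD F σ i j • em K.subtype) = (F σ : ℂ) • em K.subtype := by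
        rw [Finset.univ_unique, Finset.sum_singleton]
        rfl
      refine Eq.subst (motive := fun f => IsD (cmAV hΦ hpol) σ (em K.subtype) f) h1.symm ?_
      rcases hF1 σ with h | h
      · refine ⟨em K.subtype, 0, (add_zero _).symm, ?_, ?_, ?_⟩
        · rw [h, Int.cast_one, one_smul]
          exact (sub_zero (em K.subtype)).symm
        · exact H10_em hΦ hpol ⟨rs σ.symm, (hmem σ).2 h⟩ _ fun x => rfl
        · refine ⟨0, fun w => ?_⟩
          rw [LinearMap.zero_apply]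
          change cj (σ.symm 0) = 0
          rw [map_zero, map_zero]
      · refine ⟨0, em K.subtype, (zero_add _).symm, ?_, ?_, ?_⟩
        · rw [h, Int.cast_neg, Int.cast_one, neg_smul, one_smul]
          exact (zero_sub (em K.subtype)).symm
        · refine ⟨0, fun w => ?_⟩
          rw [LinearMap.zero_apply]
          change σ.symm 0 = 0
          rw [map_zero]
        · have h2 : F (cj.trans σ) = 1 := by rw [hF2, h, neg_neg]
          exact H10_em hΦ hpol ⟨rs (cj.trans σ).symm, (hmem _).2 h2⟩ _ fun x => rfl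
  · intro d Δ hI hR
    obtain ⟨h1, τ, hτ⟩ := irr hΦ hpol d Δ hI hR
    refine ⟨h1, fun σ σ' hσ => ?_⟩
    rw [hτ, hτ, sg, sg]
    have h2 : pb σ τ = pb σ' τ := by
      ext x
      exact hinvK σ σ' hσ _ (hval τ x)
    rw [h2]

end

end Pool.Agent.NH36.VC
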