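import Pool.Agent.NH36.VC.StmD
import Pool.Agent.NH32.GJ11
import Pool.Agent.NH32.GJ13

/-!
# V7: the hull of a variety of CM type
-/

set_option autoImplicit false
set_option linter.unusedSectionVars false

namespace Pool.Agent.NH36.VC

open Matrix Module Pool.Agent.Y90 Pool.Agent.NH32
open Pool.Agent.NH36.VH (CMp IsCMType)
open Pool.Agent.H204R3.CM (IsHodge)

noncomputable section

namespace V7

/-- induction over lists of sign functions -/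
theorem list_hull (v2 : Pool.Agent.NH36.VH.St_V2) (v4 : St_V4) (v6 : St_V6) (A : AV)
    (hA : CMt A) (K : Subfield ℂ)
    (hK : FiniteDimensional ℚ K) (hs : ∀ σ : ℂ ≃+* ℂ, ∀ z ∈ K, σ z ∈ K)
    (hc : ∀ σ : ℂ ≃+* ℂ, ∀ z ∈ K, σ (cj z) = cj (σ z)) (l : List ((ℂ ≃+* ℂ) → ℤ))
    (hl : ∀ F ∈ l, F ∈ GJ16.SF K) : ∃ X : AV, CMt X ∧ Fac A X ∧
    (∀ (d : ℕ) (Δ : (ℂ ≃+* ℂ) → Matrix (Fin d) (Fin d) ℂ), IrD Δ → Rz X d Δ →
      Rz A d Δ ∨ (d = 1 ∧ ∀ σ τ : ℂ ≃+* ℂ, (∀ z ∈ K, σ z = τ z) → trace (Δ σ) = trace (Δ τ))) ∧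
    ∀ F ∈ l, Rz X 1 (lineD F) := by
  induction l with
  | nil =>
    exact ⟨A, hA, GJ16.fac_refl A, fun d Δ _ h => Or.inl h,
      fun F hF => absurd hF List.not_mem_nil⟩
  | cons F l ih =>
    obtain ⟨X, hX0, hX, hX2, hX3⟩ := ih (fun G hG => hl G (List.mem_cons_of_mem _ hG))
    obtain ⟨hF1, hF2, hF3⟩ := hl F List.mem_cons_self
    obtain ⟨C, hC0, hC, hC2⟩ := v6 K hK hs hc F hF1 hF2 hF3
    have hCt : CMt C := by
      obtain ⟨E, hE⟩ := C.pol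
      obtain ⟨z, hz⟩ := v2 C hC0 E hE
      exact ⟨E, z, hz⟩
    refine ⟨GJ14.prodAV X C, v4 X C hX0 hCt, fac_of.2.1 A X _ hX (GJ14.fac_X X C),
      fun d Δ hΔ hR => ?_, fun G hG => ?_⟩
    · rcases GJ14.pr_main X C d Δ hΔ hR with h | h
      · exact hX2 d Δ hΔ h
      · exact Or.inr (hC2 d Δ hΔ h)
    · rcases List.mem_cons.mp hG with rfl | hG
      · exact fac_of.1 C _ (GJ14.fac_Y X C) 1 _ hC
      · exact fac_of.1 X _ (GJ14.fac_X X C) 1 _ (hX3 G hG)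

end V7

theorem t_V7 (v2 : Pool.Agent.NH36.VH.St_V2) (v3 : St_V3) (v4 : St_V4) (v6 : St_V6) : St_V7 := by
  intro A hAt
  obtain ⟨K, hK, hs, hc, hI, hA⟩ := fld_of coo_of A
  obtain ⟨X, hX0, hX, hX2, hX3⟩ := V7.list_hull v2 v4 v6 A hAt K hK hs hc
    (GJ16.SF_fin K hK).toFinset.toList
    (fun F hF => by
      rw [Finset.mem_toList, Set.Finite.mem_toFinset] at hF
      exact hF)
  have hX3' : ∀ F ∈ GJ16.SF K, Rz X 1 (lineD F) := fun F hF => hX3 F (by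
    rw [Finset.mem_toList, Set.Finite.mem_toFinset]
    exact hF)
  refine ⟨X, hX0, hX, ⟨⟨_, hX3' GJ16.F0 (GJ16.F0_mem K hI)⟩, fun F hF1 hF2 hF3 => ?_⟩,
    v3 X hX0⟩
  refine hX3' F ⟨hF1, hF2, fun σ τ hst => hF3 σ τ fun d Δ hΔ hR => ?_⟩
  rcases hX2 d Δ hΔ hR with h | h
  · exact hA σ τ hst d Δ h
  · exact h.2 σ τ hst

end

end Pool.Agent.NH36.VC
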