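import Mathlib
import Pool.Agent.NH36.VC.Asm
import Pool.Agent.NH36.VC.V1
import Pool.Agent.NH36.VC.V2
import Pool.Agent.NH36.VC.V3
import Pool.Agent.NH36.VC.V4
import Pool.Agent.NH36.VC.V6
import Pool.Agent.NH36.VC.V7

/-!
# Project VC: the main theorem
-/

namespace Pool.Agent.NH36.VC

open Module Pool.Agent.Y90 Pool.Agent.NH32
open Pool.Agent.NH36.VH
open Pool.Agent.H204R3.CM (IsHodge)

/-- The classes of degree four. -/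
theorem deg4 (𝒜 : Sys)
    (h2 : ∀ (X : AV) (f : X.H [⋀^Fin 2]→ₗ[ℚ] ℚ), IsHodge X.per f → 𝒜.A X (Fin 2) f)
    (hv : Variational 𝒜 4) (Y : AV) (f : Y.H [⋀^Fin 4]→ₗ[ℚ] ℚ) (hf : IsHodge Y.per f) :
    𝒜.A Y (Fin 4) f := by
  have hS : ∀ (Y : AV) (w : Y.H [⋀^Fin 4]→ₗ[ℚ] ℚ), SplitWeil Y w → 𝒜.A Y (Fin 4) w := by
    intro Y w h
    obtain ⟨X, e, ⟨hw, hw', K, _, _, ρ, c, E, W, -, -, -, -, -, -, -, hE, hE', -⟩, hA⟩ :=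
      spm' Y 4 w h 𝒜 h2
    exact hv X Y e E hE hE' w hw hw' hA
  obtain ⟨E, hE⟩ := Y.pol
  obtain ⟨X, e, z, hz, hX⟩ := cmp' Y E hE 4 f hf
  exact hv X Y e E hE hz.pol f hf hX (cm4' X _ z hz 𝒜 hS _ hX)

/-- The main theorem. -/
theorem main (𝒜 : Sys)
    (h2 : ∀ (X : AV) (f : X.H [⋀^Fin 2]→ₗ[ℚ] ℚ), IsHodge X.per f → 𝒜.A X (Fin 2) f) :
    (Variational 𝒜 4 ↔
      ∀ (X : AV) (f : X.H [⋀^Fin 4]→ₗ[ℚ] ℚ), IsHodge X.per f → 𝒜.A X (Fin 4) f) ∧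
    (VariationalSplitWeilFour 𝒜 → ∀ A : AV, IsCMType A → 𝒜.AllHodge A) :=
  ⟨⟨deg4 𝒜 h2, fun h X X' e E _ _ f hf _ _ => h X' f hf⟩,
    fun hV A hA => asm (t_V2 t_V1) t_V5 (t_V7 (t_V2 t_V1) t_V3 t_V4 t_V6) 𝒜 h2 hV A hA⟩

end Pool.Agent.NH36.VC
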